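import Pool.Agent.H71.TCZ.M28
import Pool.Agent.H71.TCZ.M29

/-!
# Project CZ: the homomorphisms `GL_Y(B[G]) → D^×` and `D~^× → GL_(Y^p)(B[G ≀ C_p])`

PROOFS.  `eta`: `tpM_one`, `tpM_mul`, `s_tpM`, `s_beM`, `tpM_sub`; compose with `Units.map`.
`piS_mul`: `(π ι m) v w = sg * inc (m (v(· - 1)) w)` and `(ι (s m) π) v w = inc (s m v (w(· + 1))) * sg`, `sg_mul_inc`.
`piS_pow`: entry of `π ^ j`: `sg ^ j` if `w = v (· - j)`, else `0`.
`goodB_padic`: `ℤ_[p]`: the residue field is `ZMod p` (`PadicInt.toZMod`, kernel = ideal of `p`), `1 + p` is a unit, a domain of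
characteristic zero.
`ckill_eta`: `ckill_prU`; the matrices over a group ring over a torsion free ring are torsion free.
-/

set_option autoImplicit false

open Matrix

universe u v w

namespace Pool.Agent.H71.CZ

/-- the hypotheses on the coefficient ring -/
structure GoodB (p : ℕ) (B : Type u) [CommRing B] : Prop where
  frob : ∀ b : B, ∃ c : B, b ^ p - b = (p : B) * c
  tf : ∀ (b : B) (k : ℕ), k ≠ 0 → (k : B) * b = 0 → b = 0
  unit : ∃ c : B, ((p + 1 : ℕ) : B) * c = 1

section

variable {p : ℕ} [hp : Fact p.Prime]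

theorem goodB_padic : GoodB p ℤ_[p] := by
  refine ⟨fun b => ?_, fun b k hk h => ?_, ?_⟩
  · have h1 : b ^ p - b ∈ RingHom.ker (PadicInt.toZMod (p := p)) := by
      rw [RingHom.mem_ker, map_sub, map_pow, ZMod.pow_card, sub_self]
    rw [PadicInt.ker_toZMod, PadicInt.maximalIdeal_eq_span_p, Ideal.mem_span_singleton] at h1
    exact h1
  · rcases mul_eq_zero.1 h with h | h
    · exact absurd (Nat.cast_eq_zero.1 h) hk
    · exact h
  · have h1 : ((p + 1 : ℕ) : ℤ_[p]) ∉ IsLocalRing.maximalIdeal ℤ_[p] := by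
      rw [← PadicInt.ker_toZMod, RingHom.mem_ker, map_natCast, Nat.cast_add, ZMod.natCast_self, zero_add, Nat.cast_one]
      exact one_ne_zero
    obtain ⟨u, hu⟩ := IsLocalRing.notMem_maximalIdeal.1 h1
    refine ⟨((u⁻¹ : ℤ_[p]ˣ) : ℤ_[p]), ?_⟩
    rw [← hu, Units.mul_inv]

variable {B : Type u} [CommRing B] {G : Type v} [Group G] {Y : Type w} [Fintype Y]
  [DecidableEq Y]

/-- the homomorphism `η : GL_Y(B[G]) → D^×`, `U ↦ (U^(⊗p), 1 - J 1 + J U)` -/
noncomputable def eta (hB : GoodB p B) :
    (Matrix Y Y (MonoidAlgebra B G))ˣ →* (Dd (shM p B G Y))ˣ :=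
  Units.map
    { toFun := fun U => ⟨(tpM U, beM U), s_tpM U, s_beM U, tpM_sub hB.frob U⟩
      map_one' := by
        apply Subtype.ext
        exact Prod.ext tpM_one (map_one beM)
      map_mul' := fun U V => by
        apply Subtype.ext
        exact Prod.ext (tpM_mul U V) (map_mul beM U V) }

theorem eta_fst (hB : GoodB p B) (U : (Matrix Y Y (MonoidAlgebra B G))ˣ) :
    ((eta hB U).val.1).1 = tpM U.val := rfl

theorem eta_snd (hB : GoodB p B) (U : (Matrix Y Y (MonoidAlgebra B G))ˣ) :
    ((eta hB U).val.1).2 = beM U.val := rfl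

variable (p B G Y) in
/-- the inclusion of the matrices over `B[G^p]` -/
noncomputable def iS : MM p B G Y →+*
    Matrix (ZMod p → Y) (ZMod p → Y) (MonoidAlgebra B (Wr p G)) :=
  (MonoidAlgebra.mapDomainRingHom B (inc p G)).mapMatrix

variable (p B G Y) in
/-- the matrix `π` -/
noncomputable def piS : Matrix (ZMod p → Y) (ZMod p → Y) (MonoidAlgebra B (Wr p G)) := fun v w =>
  if w = (fun i => v (i - 1)) then MonoidAlgebra.single (sg p G) 1 else 0

theorem iS_apply (m : MM p B G Y) (v w : ZMod p → Y) :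
    iS p B G Y m v w = MonoidAlgebra.mapDomainRingHom B (inc p G) (m v w) := rfl

omit [Fintype Y] [DecidableEq Y] hp in
theorem single_sg_mul (a : MonoidAlgebra B (ZMod p → G)) :
    MonoidAlgebra.single (sg p G) 1 * MonoidAlgebra.mapDomainRingHom B (inc p G) a =
      MonoidAlgebra.mapDomainRingHom B (inc p G) (MonoidAlgebra.mapDomainRingHom B (shG p G) a) *
        MonoidAlgebra.single (sg p G) 1 := by
  induction a using MonoidAlgebra.induction_linear with
  | zero => simp
  | add a b ha hb => rw [map_add, mul_add, ha, hb, map_add, map_add, add_mul]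
  | single g b =>
    rw [MonoidAlgebra.mapDomainRingHom_apply, MonoidAlgebra.mapDomainRingHom_apply, MonoidAlgebra.mapDomainRingHom_apply,
      MonoidAlgebra.mapDomain_single, MonoidAlgebra.mapDomain_single, MonoidAlgebra.mapDomain_single,
      MonoidAlgebra.single_mul_single, MonoidAlgebra.single_mul_single, one_mul, mul_one, sg_mul_inc]

theorem piS_mul_apply (m : Matrix (ZMod p → Y) (ZMod p → Y) (MonoidAlgebra B (Wr p G))) (v w : ZMod p → Y) :
    (piS p B G Y * m) v w = MonoidAlgebra.single (sg p G) 1 * m (fun i => v (i - 1)) w := by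
  rw [Matrix.mul_apply, Finset.sum_eq_single (fun i => v (i - 1))]
  · unfold piS
    rw [if_pos rfl]
  · intro x _ hx
    unfold piS
    rw [if_neg hx, zero_mul]
  · intro h
    exact absurd (Finset.mem_univ _) h

theorem mul_pow_apply {m : Matrix (ZMod p → Y) (ZMod p → Y) (MonoidAlgebra B (Wr p G))}
    {P : Matrix (ZMod p → Y) (ZMod p → Y) (MonoidAlgebra B (Wr p G))} {j : ℕ} {a : MonoidAlgebra B (Wr p G)}
    (hP : ∀ v w, P v w = if w = (fun i => v (i - (j : ZMod p))) then a else 0) (v w : ZMod p → Y) :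
    (m * P) v w = m v (fun i => w (i + (j : ZMod p))) * a := by
  rw [Matrix.mul_apply, Finset.sum_eq_single (fun i => w (i + (j : ZMod p)))]
  · rw [hP, if_pos]
    funext i
    rw [sub_add_cancel]
  · intro x _ hx
    rw [hP, if_neg, mul_zero]
    intro h
    apply hx
    funext i
    rw [h]
    show x i = x (i + (j : ZMod p) - (j : ZMod p))
    rw [add_sub_cancel_right]
  · intro h
    exact absurd (Finset.mem_univ _) h

omit [Fintype Y] in
theorem piS_apply_one (v w : ZMod p → Y) :
    piS p B G Y v w = if w = (fun i => v (i - ((1 : ℕ) : ZMod p))) then MonoidAlgebra.single (sg p G) 1 else 0 := by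
  rw [Nat.cast_one]
  rfl

theorem piS_mul (m : MM p B G Y) :
    piS p B G Y * iS p B G Y m = iS p B G Y ((shM p B G Y).s m) * piS p B G Y := by
  ext1 v w
  rw [piS_mul_apply, mul_pow_apply piS_apply_one, iS_apply, iS_apply, single_sg_mul]
  have h : (shM p B G Y).s m v (fun i => w (i + ((1 : ℕ) : ZMod p))) =
      MonoidAlgebra.mapDomainRingHom B (shG p G) (m (fun i => v (i - 1)) w) := by
    show sM p B G Y m v (fun i => w (i + ((1 : ℕ) : ZMod p))) = _
    rw [sM_apply]
    congr 2
    funext i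
    rw [Nat.cast_one, sub_add_cancel]
  rw [h]

theorem piS_pow_apply (j : ℕ) (v w : ZMod p → Y) :
    (piS p B G Y ^ j) v w =
      if w = (fun i => v (i - (j : ZMod p))) then MonoidAlgebra.single (sg p G ^ j) (1 : B)
        else 0 := by
  induction j generalizing v w with
  | zero =>
    rw [pow_zero, pow_zero, Nat.cast_zero, Matrix.one_apply, MonoidAlgebra.one_def]
    simp only [sub_zero]
    exact if_congr eq_comm rfl rfl
  | succ j ih =>
    rw [pow_succ, mul_pow_apply piS_apply_one, ih]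
    rw [ite_mul, zero_mul, MonoidAlgebra.single_mul_single, one_mul, ← pow_succ]
    refine if_congr ⟨fun h => ?_, fun h => ?_⟩ rfl rfl
    · funext i
      have h1 : w (i - 1 + ((1 : ℕ) : ZMod p)) = v (i - 1 - (j : ZMod p)) := congrFun h (i - 1)
      have h2 : i - 1 + ((1 : ℕ) : ZMod p) = i := by rw [Nat.cast_one, sub_add_cancel]
      have h3 : i - 1 - (j : ZMod p) = i - ((j + 1 : ℕ) : ZMod p) := by
        rw [Nat.cast_add, Nat.cast_one]
        ring
      rw [h2, h3] at h1
      exact h1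
    · funext i
      rw [h]
      show v (i + ((1 : ℕ) : ZMod p) - ((j + 1 : ℕ) : ZMod p)) = v (i - (j : ZMod p))
      congr 1
      rw [Nat.cast_add, Nat.cast_one]
      ring

theorem piS_pow : piS p B G Y ^ p = 1 := by
  ext1 v w
  rw [piS_pow_apply, ZMod.natCast_self, sg_pow, Matrix.one_apply, MonoidAlgebra.one_def]
  simp only [sub_zero]
  exact if_congr eq_comm rfl rfl

variable (p B G Y) in
/-- the homomorphism from `D~` to the matrices over the group ring of the wreath product -/
noncomputable def jR : Dt (shM p B G Y) →+*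
    Matrix (ZMod p → Y) (ZMod p → Y) (MonoidAlgebra B (Wr p G)) :=
  toS (shM p B G Y) (iS p B G Y) (piS p B G Y) piS_mul piS_pow

variable (p B G Y) in
/-- the homomorphism of the groups of units -/
noncomputable def jU : (Dt (shM p B G Y))ˣ →*
    (Matrix (ZMod p → Y) (ZMod p → Y) (MonoidAlgebra B (Wr p G)))ˣ :=
  Units.map (jR p B G Y).toMonoidHom

/-- the entries of `b + z Σ` -/
theorem jR_apply (X : Dt (shM p B G Y)) (v w : ZMod p → Y) :
    jR p B G Y X v w = MonoidAlgebra.mapDomainRingHom B (inc p G) (X.1 1 1 v w) +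
      ∑ j ∈ Finset.range p, MonoidAlgebra.mapDomainRingHom B (inc p G)
        (X.1 1 0 v (fun i => w (i + (j : ZMod p)))) * MonoidAlgebra.single (sg p G ^ j) 1 := by
  unfold jR
  rw [toS_apply, Matrix.add_apply, Finset.mul_sum, Matrix.sum_apply, iS_apply]
  congr 1
  refine Finset.sum_congr rfl fun j _ => ?_
  rw [mul_pow_apply (piS_pow_apply j), iS_apply]

/-- **The extension satisfies the hypotheses of Lemma CK.** -/
theorem ckill_eta (hB : GoodB p B) :
    ∃ t : (Dt (shM p B G Y))ˣ, CKill (prU (shM p B G Y)) t (p + 1) := by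
  obtain ⟨c₀, hc₀⟩ := hB.unit
  have hc : ((p + 1 : ℕ) : MM p B G Y) * (c₀ • (1 : MM p B G Y)) = 1 := by
    have h1 : ((p + 1 : ℕ) : MM p B G Y) = ((p + 1 : ℕ) : B) • (1 : MM p B G Y) := by
      rw [Nat.cast_smul_eq_nsmul, nsmul_eq_mul, mul_one]
    rw [h1, smul_mul_smul_comm, hc₀, one_mul, one_smul]
  obtain ⟨t, ht⟩ := exists_tD (shM p B G Y) hc
  refine ⟨t, ckill_prU (shM p B G Y) hp.out.one_le (fun x k hk hx => ?_) hc ht⟩
  rw [← nsmul_eq_mul] at hx
  ext1 v w
  have h1 : k • x v w = 0 := by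
    rw [← Matrix.smul_apply, hx, Matrix.zero_apply]
  refine tp_ext fun g => ?_
  have h2 : (k : B) * (x v w).coeff g = 0 := by
    have h3 : (k • x v w).coeff g = (0 : MonoidAlgebra B (ZMod p → G)).coeff g := by rw [h1]
    rw [MonoidAlgebra.coeff_smul, Finsupp.smul_apply, nsmul_eq_mul] at h3
    exact h3
  rw [hB.tf _ k hk h2]
  simp

end

end Pool.Agent.H71.CZ
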